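import Pool.Agent.J6H77.N18.Sound
import Pool.Agent.J6H77.N18C.D00
import Pool.Agent.J6H77.N18C.D01
import Pool.Agent.J6H77.N18C.D02
import Pool.Agent.J6H77.N18C.D03
import Pool.Agent.J6H77.N18C.D04
import Pool.Agent.J6H77.N18C.D05
import Pool.Agent.J6H77.N18C.D06
import Pool.Agent.J6H77.N18C.D07
import Pool.Agent.J6H77.N18C.D08
import Pool.Agent.J6H77.N18C.D09
import Pool.Agent.J6H77.N18C.D10
import Pool.Agent.J6H77.N18C.D11
import Pool.Agent.J6H77.N18C.D12
import Pool.Agent.J6H77.N18C.D13
import Pool.Agent.J6H77.N18C.D14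
import Pool.Agent.J6H77.N18C.D15
import Pool.Agent.J6H77.N18C.D16
import Pool.Agent.J6H77.N18C.D17
import Pool.Agent.J6H77.N18C.D18
import Pool.Agent.J6H77.N18C.D19
import Pool.Agent.J6H77.N18C.D20
import Pool.Agent.J6H77.N18C.D21
import Pool.Agent.J6H77.N18C.D22
import Pool.Agent.J6H77.N18C.D23
import Pool.Agent.J6H77.N18C.D24
import Pool.Agent.J6H77.N18C.D25
import Pool.Agent.J6H77.N18C.D26
import Pool.Agent.J6H77.N18C.D27
import Pool.Agent.J6H77.N18C.D28
import Pool.Agent.J6H77.N18C.D29
import Pool.Agent.J6H77.N18C.D30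
import Pool.Agent.J6H77.N18C.D31
import Pool.Agent.J6H77.N18C.D32
import Pool.Agent.J6H77.N18C.D33
import Pool.Agent.J6H77.N18C.D34
import Pool.Agent.J6H77.N18C.D35
import Pool.Agent.J6H77.N18C.D36
import Pool.Agent.J6H77.N18C.D37
import Pool.Agent.J6H77.N18C.D38
import Pool.Agent.J6H77.N18C.D39
import Pool.Agent.J6H77.N18C.D40
import Pool.Agent.J6H77.N18C.D41
import Pool.Agent.J6H77.N18C.D42
import Pool.Agent.J6H77.N18C.D43

/-! # `18` is not the order of a `14`-regular nut graph -/

set_option autoImplicit false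

namespace Pool.Agent.J6H77.N18C

open Pool.Agent.J6H77.N18

theorem h0 : Chain tab 0 166 := D00.all

theorem h1 : Chain tab 0 295 := h0.trans D01.all

theorem h2 : Chain tab 0 355 := h1.trans D02.all

theorem h3 : Chain tab 0 423 := h2.trans D03.all

theorem h4 : Chain tab 0 483 := h3.trans D04.all

theorem h5 : Chain tab 0 534 := h4.trans D05.all

theorem h6 : Chain tab 0 631 := h5.trans D06.all

theorem h7 : Chain tab 0 720 := h6.trans D07.all

theorem h8 : Chain tab 0 813 := h7.trans D08.all

theorem h9 : Chain tab 0 903 := h8.trans D09.all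

theorem h10 : Chain tab 0 1025 := h9.trans D10.all

theorem h11 : Chain tab 0 1128 := h10.trans D11.all

theorem h12 : Chain tab 0 1207 := h11.trans D12.all

theorem h13 : Chain tab 0 1283 := h12.trans D13.all

theorem h14 : Chain tab 0 1332 := h13.trans D14.all

theorem h15 : Chain tab 0 1376 := h14.trans D15.all

theorem h16 : Chain tab 0 1415 := h15.trans D16.all

theorem h17 : Chain tab 0 1498 := h16.trans D17.all

theorem h18 : Chain tab 0 1577 := h17.trans D18.all

theorem h19 : Chain tab 0 1661 := h18.trans D19.all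

theorem h20 : Chain tab 0 1758 := h19.trans D20.all

theorem h21 : Chain tab 0 1829 := h20.trans D21.all

theorem h22 : Chain tab 0 1930 := h21.trans D22.all

theorem h23 : Chain tab 0 2016 := h22.trans D23.all

theorem h24 : Chain tab 0 2107 := h23.trans D24.all

theorem h25 : Chain tab 0 2267 := h24.trans D25.all

theorem h26 : Chain tab 0 2599 := h25.trans D26.all

theorem h27 : Chain tab 0 2851 := h26.trans D27.all

theorem h28 : Chain tab 0 3278 := h27.trans D28.all

theorem h29 : Chain tab 0 3626 := h28.trans D29.all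

theorem h30 : Chain tab 0 3942 := h29.trans D30.all

theorem h31 : Chain tab 0 4162 := h30.trans D31.all

theorem h32 : Chain tab 0 4469 := h31.trans D32.all

theorem h33 : Chain tab 0 4693 := h32.trans D33.all

theorem h34 : Chain tab 0 4953 := h33.trans D34.all

theorem h35 : Chain tab 0 5195 := h34.trans D35.all

theorem h36 : Chain tab 0 5414 := h35.trans D36.all

theorem h37 : Chain tab 0 5599 := h36.trans D37.all

theorem h38 : Chain tab 0 5833 := h37.trans D38.all

theorem h39 : Chain tab 0 6085 := h38.trans D39.all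

theorem h40 : Chain tab 0 6433 := h39.trans D40.all

theorem h41 : Chain tab 0 6879 := h40.trans D41.all

theorem h42 : Chain tab 0 7346 := h41.trans D42.all

theorem h43 : Chain tab 0 7541 := h42.trans D43.all

theorem last : tab 7540 = star := by decide +kernel

theorem not_mem : 18 ∉ Pool.Agent.TH296.Nut.nutOrders 14 := by
  intro h
  have h1 := h43.ref 7540 (by norm_num)
  rw [last] at h1
  exact not_star ⟨h1, h⟩

end Pool.Agent.J6H77.N18C
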